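import Pool.Agent.W826.PB.Props

/-!
# Russo's formula
-/

set_option autoImplicit false

namespace Pool.Agent.W925.PB.Russo

open Pool.Agent.W826.PB Finset

theorem split_sum {I : Type} [Fintype I] [DecidableEq I] (i : I) (H : (I → Bool) → ℝ) :
    ∑ ω, H ω = ∑ ω with ω i = true, (H ω + H (Function.update ω i false)) := by
  rw [Finset.sum_add_distrib, ← Finset.sum_filter_add_sum_filter_not univ (fun ω => ω i = true)]
  congr 1
  refine Finset.sum_nbij' (fun ω => Function.update ω i true) (fun ω => Function.update ω i false)
    ?_ ?_ ?_ ?_ ?_
  · intro ω _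
    simp
  · intro ω _
    simp
  · intro ω hω
    simp only [mem_filter, mem_univ, true_and, Bool.not_eq_true] at hω
    rw [Function.update_idem, ← hω, Function.update_eq_self]
  · intro ω hω
    simp only [mem_filter, mem_univ, true_and] at hω
    rw [Function.update_idem, ← hω, Function.update_eq_self]
  · intro ω hω
    simp only [mem_filter, mem_univ, true_and, Bool.not_eq_true] at hω
    rw [Function.update_idem, ← hω, Function.update_eq_self]

theorem main : P_russo := by
  intro I _ _ s s' u F hs
  have hw : ∀ (ω : I → Bool) (i : I), HasDerivAt (fun v => if ω i then s v i else 1 - s v i)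
      (if ω i then s' i else - s' i) u := by
    intro ω i
    cases ω i
    · simpa using (hs i).const_sub 1
    · simpa using hs i
  have h1 : HasDerivAt (fun v => Ex (s v) F) (∑ ω : I → Bool,
      (∑ i, (∏ j ∈ univ.erase i, (if ω j then s u j else 1 - s u j)) •
        (if ω i then s' i else - s' i)) * F ω) u := by
    unfold Ex wt
    refine HasDerivAt.fun_sum fun ω _ => ?_
    exact (HasDerivAt.fun_finsetProd fun i _ => hw ω i).mul_const (F ω)
  convert h1 using 1
  simp only [Finset.sum_mul]
  rw [Finset.sum_comm]
  refine Finset.sum_congr rfl fun i _ => ?_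
  unfold Ex D wt
  rw [split_sum i, split_sum i (fun ω => ((∏ j ∈ univ.erase i,
    (if ω j then s u j else 1 - s u j)) • (if ω i then s' i else - s' i)) * F ω), Finset.mul_sum]
  refine Finset.sum_congr rfl fun ω hω => ?_
  simp only [mem_filter, mem_univ, true_and] at hω
  have e1 : ∀ ω' : I → Bool, (∏ j, (if ω' j then s u j else 1 - s u j)) =
      (if ω' i then s u i else 1 - s u i) *
        ∏ j ∈ univ.erase i, (if ω' j then s u j else 1 - s u j) := fun ω' =>
    (Finset.mul_prod_erase univ _ (mem_univ i)).symm
  have e2 : (∏ j ∈ univ.erase i, (if (Function.update ω i false) j then s u j else 1 - s u j)) =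
      ∏ j ∈ univ.erase i, (if ω j then s u j else 1 - s u j) := by
    refine Finset.prod_congr rfl fun j hj => ?_
    rw [Function.update_of_ne (Finset.ne_of_mem_erase hj)]
  have e3 : Function.update ω i true = ω := by rw [← hω, Function.update_eq_self]
  simp only [e1, e2, Function.update_idem, Function.update_self, e3, hω, smul_eq_mul, if_true,
    Bool.false_eq_true, if_false]
  ring

end Pool.Agent.W925.PB.Russo
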